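import Pool.Agent.Helper63.PL.Goals

set_option autoImplicit false

/-!
# Packet GE: a large ball in the half of a radially symmetric domain
-/

namespace Pool.Agent.Helper25.PL

open Pool.Agent.Helper63.PL

lemma ball_sub (N : ℕ) (i : Fin N) (a b c w : ℝ) (hc : 0 ≤ c) (h1 : c + w ≤ b) (h2 : a ≤ c - w)
    (h3 : 0 ≤ c - w) :
    Metric.ball (c • (EuclideanSpace.single i (1 : ℝ) : E N)) w ⊆ half (Rad N a b) i := by
  intro x hx
  set x₀ : E N := c • (EuclideanSpace.single i (1 : ℝ) : E N) with hx₀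
  have hn : ‖x₀‖ = c := by
    rw [hx₀, norm_smul, EuclideanSpace.norm_single, Real.norm_eq_abs, abs_of_nonneg hc]
    simp
  have hi : x₀ i = c := by
    simp [hx₀]
  have hd : ‖x - x₀‖ < w := by
    simpa [dist_eq_norm] using hx
  have hup : ‖x‖ ≤ ‖x - x₀‖ + ‖x₀‖ := by
    have := norm_add_le (x - x₀) x₀
    simpa using this
  have hlo : ‖x₀‖ ≤ ‖x - x₀‖ + ‖x‖ := by
    have := norm_add_le (x₀ - x) x
    rw [norm_sub_rev] at this
    simpa using this
  have hco : |x i - x₀ i| ≤ ‖x - x₀‖ := by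
    have := PiLp.norm_apply_le (x - x₀) i
    simpa [Real.norm_eq_abs] using this
  refine ⟨⟨?_, ?_⟩, ?_⟩
  · rw [hn] at hlo; linarith
  · rw [hn] at hup; linarith
  · rw [hi] at hco
    have := (abs_lt.1 (lt_of_le_of_lt hco hd)).1
    linarith

theorem ge : GeStmt := by
  intro N i a b hb ha
  have hs0 : (0 : ℝ) ≤ √2 := Real.sqrt_nonneg 2
  have hs : √2 * √2 = (2 : ℝ) := Real.mul_self_sqrt (by norm_num)
  have hs1 : (1 : ℝ) < √2 := by nlinarith
  have hs2 : √2 < (3 / 2 : ℝ) := by nlinarith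
  rcases le_or_gt 0 a with h | h
  · have hab : a < b := by nlinarith
    refine ⟨(b - a) / 2, ((a + b) / 2) • (EuclideanSpace.single i (1 : ℝ) : E N), by linarith,
      by nlinarith, ?_⟩
    apply ball_sub <;> linarith
  · refine ⟨b / 2, (b / 2) • (EuclideanSpace.single i (1 : ℝ) : E N), by linarith,
      by nlinarith, ?_⟩
    apply ball_sub <;> linarith

end Pool.Agent.Helper25.PL
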